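import Pool.Agent.Lib.MP_42281e_gt.Main
import Pool.Agent.Lib.MP_42281e_gt.Sum
import Pool.Agent.Lib.MP_42281e_gt.Upper

/-!
The topological complexity of a connected sum of two closed aspherical `n`-manifolds, `n ≥ 2`, is
`2 * n + 1`.
-/

open Set Topology

namespace Pool.Agent.Results.MP_42281e_gt.Full

/-- The topological complexity (not reduced): the least `k` such that `X × X` is covered by `k` open
sets, each with a continuous section of the map sending a path to its endpoints. -/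
noncomputable def TC (X : Type) [TopologicalSpace X] : ℕ :=
  sInf {k | ∃ U : Fin k → Set (X × X), (∀ i, IsOpen (U i)) ∧ ⋃ i, U i = univ ∧
    ∀ i, ∃ s : C(U i, C(unitInterval, X)), ∀ u, (s u 0, s u 1) = u.1}

/-- `M` has a surjective covering map from a contractible space. -/
def Aspherical (M : Type) [TopologicalSpace M] : Prop :=
  ∃ (Y : Type) (_ : TopologicalSpace Y) (p : Y → M),
    IsCoveringMap p ∧ Function.Surjective p ∧ ContractibleSpace Y

/-- The point `i v` of `M` is glued to the point `j (v / ‖v‖ ^ 2)` of `N`. -/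
def Glue {n : ℕ} {M N : Type} (i : EuclideanSpace ℝ (Fin n) → M)
    (j : EuclideanSpace ℝ (Fin n) → N) (a b : {x // x ≠ i 0} ⊕ {y // y ≠ j 0}) : Prop :=
  ∃ x y v, a = Sum.inl x ∧ b = Sum.inr y ∧ x.1 = i v ∧ y.1 = j ((‖v‖ ^ 2)⁻¹ • v)

/-- The connected sum along the discs `i` and `j`, with the quotient topology. -/
abbrev ConnSum {n : ℕ} {M N : Type} (i : EuclideanSpace ℝ (Fin n) → M)
    (j : EuclideanSpace ℝ (Fin n) → N) : Type := Quot (Glue i j)

open Pool.Agent.Lib.MP_42281e_gt Pool.Agent.Shared.Mod2 Function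

lemma open_aux {E M N : Type} [NormedAddCommGroup E] [NormedSpace ℝ E] [TopologicalSpace M]
    [TopologicalSpace N] [T1Space M] {i : E → M} {j : E → N} (hi : IsOpenEmbedding i)
    (hj : IsOpenEmbedding j) {U : Set {x // x ≠ i 0}} (hU : IsOpen U) :
    IsOpen {y : {y // y ≠ j 0} | ∃ x ∈ U, ∃ v, x.1 = i (iv v) ∧ y.1 = j v} := by
  have : IsOpen {v | v ≠ 0 ∧ i (iv v) ∈ Subtype.val '' U} := isOpen_iff_mem_nhds.2 fun v hv =>
    Filter.inter_mem (isOpen_ne.mem_nhds hv.1) ((hi.continuous.continuousAt.comp (iv_cont hv.1))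
      ((isOpen_ne.isOpenMap_subtype_val _ hU).mem_nhds hv.2))
  convert (hj.isOpenMap _ this).preimage continuous_subtype_val using 1
  ext y
  exact ⟨fun ⟨x, a, v, b, c⟩ => ⟨v, ⟨fun e => y.2 (by rw [c, e]), x, a, b⟩, c.symm⟩,
    fun ⟨v, ⟨_, x, a, b⟩, c⟩ => ⟨x, a, v, b, c.symm⟩⟩

lemma cs {n : ℕ} {M N : Type} [TopologicalSpace M] [TopologicalSpace N] [T1Space M] [T1Space N]
    {i : EuclideanSpace ℝ (Fin n) → M} {j : EuclideanSpace ℝ (Fin n) → N} (hi : IsOpenEmbedding i)
    (hj : IsOpenEmbedding j) :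
    CS i j (fun x => Quot.mk (Glue i j) (Sum.inl x)) fun y => Quot.mk _ (Sum.inr y) := by
  let α : ConnSum i j → M := Quot.lift
    (Sum.elim Subtype.val fun y => extend j (i ∘ iv) (fun _ => i 0) y.1) (by
      rintro _ _ ⟨x, y, v, rfl, rfl, c, d⟩
      simp only [Sum.elim_inl, Sum.elim_inr, c, d, hj.injective.extend_apply]
      exact congrArg i (iv_iv v).symm)
  let β : ConnSum i j → N := Quot.lift
    (Sum.elim (fun x => extend i (j ∘ iv) (fun _ => j 0) x.1) Subtype.val) (by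
      rintro _ _ ⟨x, y, v, rfl, rfl, c, d⟩
      simp only [Sum.elim_inl, Sum.elim_inr, c, d, hi.injective.extend_apply]
      rfl)
  have a : Injective fun x => Quot.mk (Glue i j) (Sum.inl x) := fun _ _ e =>
    Subtype.ext (congrArg α e)
  have b : Injective fun x => Quot.mk (Glue i j) (Sum.inr x) := fun _ _ e =>
    Subtype.ext (congrArg β e)
  have c : ∀ x y, Quot.mk (Glue i j) (Sum.inl x) = Quot.mk _ (Sum.inr y) ↔
      ∃ v, x.1 = i v ∧ y.1 = j (iv v) := fun x y => by
    refine ⟨fun e => ?_, fun ⟨v, e⟩ => Quot.sound ⟨x, y, v, rfl, rfl, e⟩⟩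
    have e : extend i (j ∘ iv) (fun _ => j 0) x.1 = y.1 := congrArg β e
    by_cases h : ∃ v, i v = x.1
    · obtain ⟨v, h⟩ := h
      rw [← h, hi.injective.extend_apply] at e
      exact ⟨v, h.symm, e.symm⟩
    · rw [extend_apply' _ _ _ h] at e
      exact (y.2 e.symm).elim
  refine ⟨hi, hj, .of_continuous_injective_isOpenMap (continuous_quot_mk.comp continuous_inl) a
    fun U hU => isOpen_coinduced.2 (isOpen_sum_iff.2 ⟨?_, ?_⟩),
    .of_continuous_injective_isOpenMap (continuous_quot_mk.comp continuous_inr) b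
    fun U hU => isOpen_coinduced.2 (isOpen_sum_iff.2 ⟨?_, ?_⟩), ?_, c⟩
  · exact (preimage_image_eq U a).symm ▸ hU
  · convert open_aux hi hj hU using 1
    ext y
    exact exists_congr fun x => and_congr_right fun _ => (c x y).trans
      ⟨fun ⟨v, e, f⟩ => ⟨iv v, by rwa [iv_iv], f⟩, fun ⟨v, e, f⟩ => ⟨iv v, e, by rwa [iv_iv]⟩⟩
  · convert open_aux hj hi hU using 1
    ext x
    exact exists_congr fun y => and_congr_right fun _ => eq_comm.trans ((c x y).trans
      (exists_congr fun _ => and_comm))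
  · exact (preimage_image_eq U b).symm ▸ hU
  · rintro ⟨x | x⟩
    · exact Or.inl ⟨x, rfl⟩
    · exact Or.inr ⟨x, rfl⟩

theorem result (n : ℕ) (hn : 2 ≤ n) (M N : Type)
    [TopologicalSpace M] [T2Space M] [CompactSpace M] [ChartedSpace (EuclideanSpace ℝ (Fin n)) M]
    [TopologicalSpace N] [T2Space N] [CompactSpace N] [ChartedSpace (EuclideanSpace ℝ (Fin n)) N]
    (hM : Aspherical M) (hN : Aspherical N)
    (i : EuclideanSpace ℝ (Fin n) → M) (j : EuclideanSpace ℝ (Fin n) → N)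
    (hi : IsOpenEmbedding i) (hj : IsOpenEmbedding j) : TC (ConnSum i j) = 2 * n + 1 := by
  obtain ⟨Y, _, p, p1, p2, _⟩ := hM
  obtain ⟨Z, _, q, q1, q2, _⟩ := hN
  have h := cs hi hj
  have r : Module.finrank ℝ (EuclideanSpace ℝ (Fin n)) = n := finrank_euclideanSpace_fin
  have r1 : 1 < Module.rank ℝ (EuclideanSpace ℝ (Fin n)) := by
    rw [← Module.finrank_eq_rank, r]; exact_mod_cast hn
  have : Nontrivial (EuclideanSpace ℝ (Fin n)) := Module.nontrivial_of_finrank_pos (R := ℝ) (by omega)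
  have lM : LE (EuclideanSpace ℝ (Fin n)) M := le_of_charted
  have lN : LE (EuclideanSpace ℝ (Fin n)) N := le_of_charted
  have lX := h.le lM lN
  have := h.t2
  have := h.compact
  have := p2.connectedSpace p1.continuous
  have := q2.connectedSpace q1.continuous
  have := h.conn r1
  have := le_lpc lX
  have := PathConnectedSpace.of_locallyPathConnectedSpace (X := ConnSum i j)
  have := le_lpc (le_cover p1 lM)
  have := le_lpc (le_cover q1 lN)
  refine IsLeast.csInf_eq ⟨?_, fun k ⟨U, u1, u2, u3⟩ => not_lt.1 fun hk => ?_⟩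
  · have := upper lX
    rw [r] at this
    obtain ⟨O, o1, o2⟩ := this
    exact ⟨O, fun k => (o1 k).1, o2, fun k => let ⟨s, a, b⟩ := (o1 k).2
      ⟨⟨_, a.domRestrict⟩, fun u => Prod.ext (b u u.2).1 (b u u.2).2⟩⟩
  obtain ⟨a, a1, a2⟩ := exists_sec p1 p2 hi
  obtain ⟨b, b1, b2⟩ := exists_sec q1 q2 hj
  obtain ⟨f, f1, -, φ, f2, f3, f4⟩ := h.collapse
  obtain ⟨g, g1, -, ψ, g2, g3, g4⟩ := h.symm.collapse
  obtain ⟨m, hm⟩ : ∃ m, 2 * n = m + 3 := ⟨2 * n - 3, by omega⟩
  let V : Fin (m + 3) → Set (ConnSum i j × ConnSum i j) := fun l =>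
    if e : l.1 < k then U ⟨l, e⟩ else ∅
  have : ∀ l, IsOpen (V l) ∧ ∃ s : C(V l, C(unitInterval, ConnSum i j)),
      ∀ u, (s u 0, s u 1) = u.1 := fun l => by
    by_cases e : l.1 < k
    · rw [show V l = U ⟨l, e⟩ from dif_pos e]
      exact ⟨u1 _, u3 _⟩
    · rw [show V l = ∅ from dif_neg e]
      exact ⟨isOpen_empty, ⟨isEmptyElim, continuous_of_discreteTopology⟩, isEmptyElim⟩
  choose v1 s v2 using this
  refine no_cover (deck_quotient p1 p2) (deck_quotient q1 q2) lM lN lX a1 b1 f g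
    (fun x => (h.cover x).symm.imp (fun e => Filter.mem_of_superset
      (hi.isOpen_range.mem_nhds (f1 x e)) a2) fun e => b2 _ (g1 x e))
    f2 f3 f4 g2 g3 g4 (r.symm ▸ hm) v1 (eq_univ_of_forall fun z => ?_) s
    fun l u => Prod.mk.inj (v2 l u)
  obtain ⟨l, e⟩ := mem_iUnion.1 (u2.symm ▸ mem_univ z : z ∈ ⋃ l, U l)
  exact mem_iUnion.2 ⟨⟨l, by omega⟩, by simpa [V] using e⟩

end Pool.Agent.Results.MP_42281e_gt.Full
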